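import Pool.Agent.U227.GapMain

/-!
# A gap theorem for algebraic correspondences over finite fields, and the conjecture D

Let `X` be a variety of dimension `n`, `W` a Weil cohomology theory with algebraically closed
coefficient field `K` of characteristic zero (one may always extend the coefficients), `D` a divisor
with hard Lefschetz, and `f` an endomorphism which acts as a Frobenius endomorphism relative to the
field with `q > 1` elements: `(f × f)^*` multiplies the classes of cycles of codimension `j` on `X × X`
by `q ^ j`, and `f^*` satisfies the Riemann hypothesis.

For an irreducible polynomial `Q` with rational coefficients let `U = U(i, Q)` be the `Q`-primary part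
of `H^i(X)` for `f^*`. Its dimension is `m deg Q`, where `m` is the multiplicity of `Q` in the
characteristic polynomial. Let `r` be the rank of the trace form `(z, w) ↦ tr(z w | U)` on the
cycles of codimension `n` on `X × X`; this is the number of correspondences of degree zero on `U` which are
independent modulo numerical equivalence. All correspondences commute with `f^*`, so `r ≤ m² deg Q`.

**Theorem 1 (gap).** If `r > ((m - 1)² + 1) deg Q`, or if `m = 1`, then

* all operators on `U` which commute with `f^*` are combinations of algebraic correspondences with
  coefficients in `K` (the Tate conjecture for `End(U)`), so that in fact `r = m² deg Q`;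
* `f^*` is semisimple on `U`: `Q(f^*) = 0`;
* numerically trivial correspondences of degree zero vanish on `U`.

So `r / deg Q` is either `m²` or at most `m² - 2 m + 2`. For `m = 2` it is one of `1, 2, 4`.

**Theorem 2.** Suppose that for all `i` and `Q` with `U(i, Q) ≠ 0` we have `m = 1` or
`r > ((m - 1)² + 1) deg Q`. Then

* all operators on `H^i(X)` which commute with `f^*` are combinations of algebraic correspondences, for
  all `i`, and `f^*` is semisimple;
* homological and numerical equivalence coincide on `X`, and on `X × X` in all codimensions `p ≤ n`;
* the following are equivalent: homological and numerical equivalence coincide on `X × X` in ALL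
  codimensions; the Lefschetz standard conjecture `B(X)`; for each `i < n` and each `Q` with
  `U(2n - i, Q) ≠ 0` there is ONE cycle of codimension `i` on `X × X` which does not act as zero on
  `U(2n - i, Q)`.

Tate proved that all this follows if `r` has the maximal value `m² deg Q`. Here the rank may a priori
differ from this value by any number smaller than `(2 m - 2) deg Q`. So the conjecture D for `X × X`
follows from the existence of enough numerically independent correspondences of degree zero and of one
nonzero correspondence for each factor, in the degrees `-1, ..., -n`.

Proof. (a) For a root `α` of `Q` let `A_α` be the algebra of operators on the generalized eigenspace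
`V_α` (of dimension `m`) given by the correspondences. If `A_α` is not the full matrix algebra there is
by Burnside's theorem an invariant subspace; the trace form of `A_α` factors through the operators on
this subspace and its quotient, so that its rank is at most `a² + (m - a)² ≤ (m - 1)² + 1`.
(b) The ranks at all roots of `Q` are equal, and so `r / deg Q`: the traces of rational
correspondences on the `V_α` are the conjugates of one element of `ℚ[T]/Q` (by the trace formula, the
algebraicity of the Künneth projectors and the nondegeneracy of the trace form of `ℚ[T]/Q`), and
homomorphisms of fields preserve the ranks of matrices.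
(c) If the operators `ξ ^ (n - i) z`, with `z` a combination of cycles of codimension `i`, are not all
zero on `U(2n - i, Q)`, they are a two-sided ideal in the algebra of the operators which commute with
`f^*` (here one uses Theorem 2 in degree `i` to pass from one side to the other), and this ideal is not
zero at any root, by (b); so it contains `1`.
(d) From the middle codimension of `X × X` to smaller codimensions by hard Lefschetz. That `B(X)` and D
in the middle codimension of `X × X` imply D for `X × X` is proved in the library.
-/

set_option autoImplicit false

universe u v

namespace Pool.Agent.Results.MP_5f0950_ag.GapTheorem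

open CategoryTheory Pool.Agent.H914 Pool.Agent.H447 Pool.Agent.H914.VarClass
  Pool.Agent.H914.VarClass.Obj Pool.Agent.H914.WeilCohomology Pool.Agent.U227.Fr
  Pool.Agent.U227.Gap Polynomial

/-- **The gap theorem and the conjecture D.** -/
theorem result {k : Type u} [Field k] {𝒱 : VarClass k} {ops : CycleOps 𝒱}
    (W : WeilCohomology.{u, v} ops) [IsAlgClosed W.K] (X : 𝒱.Obj) (D : X.Cycles)
    (hD : X.IsCyc 1 D) (hHL : HardLefschetz W X D) (f : X ⟶ X) (q : ℕ) (hq : 1 < q)
    (hF : IsFrobenius W X f q) (hRH : RiemannHypothesis W X f q) :
    (∀ (i : ℕ) (Q : ℚ[X]), Irreducible Q →
      NearlyFull (cycOps W X X.dim) (primPart W X f i Q) Q.natDegree →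
      GapConclusion (cycOps W X X.dim) (numTrivOps W X) (W.map f).toLinearMap
        (primPart W X f i Q) Q) ∧
    (LargeRanks W X f →
      (∀ i, AllCommuting (cycOps W X X.dim) (W.map f).toLinearMap (W.gr X i)) ∧
      Module.End.IsSemisimple (R := W.K) (M := W.H X) (W.map f).toLinearMap ∧
      (∀ p ≤ X.dim, HomEqNumIn W (X.prod X) p) ∧ HomEqNum W X ∧
      List.TFAE [HomEqNum W (X.prod X), LefschetzB W X D, FactorsHit W X f]) :=
  ⟨fun i _ hQ h => main_part hD hHL hF hq hRH i hQ h, fun h => main_all hD hHL hF hq hRH h⟩

end Pool.Agent.Results.MP_5f0950_ag.GapTheorem
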