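import Pool.Agent.W534.FamD
import Pool.Agent.X310.Odd

/-!
# The conjecture D in one codimension next to the middle

Let `X` be a smooth projective variety of dimension `n` over a field of any characteristic and `Y` a
smooth hyperplane section; `W` is a Weil cohomology theory with hard Lefschetz for `(X, D)` and weak
Lefschetz for `Y → X`. Let `D^q(Z)` be the statement that the cycles of codimension `q` on `Z` which are
numerically equivalent to zero are homologically equivalent to zero.

**Theorem 1.** The following are equivalent.

1. `D^n(X × Y)`, in the SINGLE codimension `n = dim X` (just above the middle `n - 1/2`).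
2. `D^q(X × Y)` for all `q`.
3. The Lefschetz standard conjecture `B(X)` together with `D^(n-1)(X × Y)`.

They imply `D^q(X)` and `D^q(Y)` for all `q`; and on `X × X` and `Y × Y` all numerically trivial cycles of
all codimensions act as zero on cohomology, except that they may map the primitive part of `H^n(X)`
to itself (respectively the vanishing part of `H^(n-1)(Y)` to itself).

**Theorem 2.** If all varieties have such hyperplane sections (as in the case of `ℓ`-adic
cohomology), the conjecture `D` for all varieties and all codimensions is equivalent to the conjecture
`D` for the varieties of ODD dimension `2 m + 1` in the SINGLE codimension `m + 1`.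

It was known (Grothendieck, Kleiman, Smirnov) that `D` for all varieties in all codimensions implies the
Lefschetz standard conjecture. Here one codimension is enough, and it gives back `D` in all
codimensions. In the proof the codimension `m + 1` cannot be replaced by `m`: `D^m` bounds the number of
cycles of codimension `m` by that of codimension `m + 1`, which is clear anyway; in statement 3 one
needs `B(X)` in addition.

Proof. Let `r_q` be the dimension of the span of the classes of cycles of codimension `q` on `X × Y` over
the coefficient field. By hard and weak Lefschetz for `X` and `Y` the multiplication by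
`E = D × Y + X × D|_Y` is an isomorphism from `H^(2n-2)(X × Y)` to `H^(2n)(X × Y)`; so `r_(n-1) ≤ r_n`. Under 1
the pairing gives `r_n ≤ r_(n-1)`. So `r_n = r_(n-1)`, and this equality implies `B(X)`: the quotient
of the graph of `Y → X` by `E` is algebraic, and from it one constructs an algebraic operator of
degree `-1` on `H(X)` with the same properties as `Λ`. With `Λ` every correspondence between `X` and `Y`, of
any degree, is a combination of compositions of a correspondence of degree zero with the powers of
`D` and `Λ` of `X` and the restriction and Gysin maps, and one can reconstruct it; this reduces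
`D^q(X × Y)` to `D^n(X × Y)`.

The theorem is assembled from the files `W534/FamD` (theorems `d_hyperplane`, `homEqNum_factors`,
`numTrivialOnSquares`) and `X310/Odd` of the starting library, whose theorems had not been handed in;
Theorem 2 is added here.
-/

set_option autoImplicit false

universe u v

namespace Pool.Agent.Results.MP_5f0950_ag.HyperplaneSections

open Pool.Agent.H914 Pool.Agent.H914.VarClass Pool.Agent.H914.VarClass.Obj
  Pool.Agent.H914.WeilCohomology Pool.Agent.H447 Pool.Agent.W534 Pool.Agent.X310

variable {k : Type u} [Field k] {𝒱 : VarClass k} {ops : CycleOps 𝒱}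

/-- The statements of Theorem 1 for `i : Y → X` and the divisor `D` on `X`. -/
def OneCodimension (W : WeilCohomology.{u, v} ops) {X Y : 𝒱.Obj} (i : Y ⟶ X) (D : X.Cycles) :
    Prop :=
  List.TFAE [
    HomEqNumIn W (X.prod Y) X.dim,
    ∀ q, HomEqNumIn W (X.prod Y) q,
    LefschetzB W X D ∧ HomEqNumIn W (X.prod Y) Y.dim] ∧
  (HomEqNumIn W (X.prod Y) X.dim →
    (∀ q, HomEqNumIn W X q ∧ HomEqNumIn W Y q) ∧ ∀ q, NumTrivialOnSquares W i D q)

/-- **The conjecture D in one codimension.** -/
theorem result {k : Type u} [Field k] {𝒱 : VarClass k} {ops : CycleOps 𝒱}
    (W : WeilCohomology.{u, v} ops) :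
    (∀ (X Y : 𝒱.Obj) (i : Y ⟶ X) (D : X.Cycles), X.dim = Y.dim + 1 → X.IsCyc 1 D →
      W.cl X (ops.push i Y.V.fundCycle) = W.cl X D → HardLefschetz W X D →
      WeakLefschetz W i → OneCodimension W i D) ∧
    ((∀ X : 𝒱.Obj, 1 ≤ X.dim → HasSection W X) →
      ((∀ V : 𝒱.Obj, 1 ≤ V.dim → ∀ q, HomEqNumIn W V q) ↔
        ∀ (V : 𝒱.Obj) (m : ℕ), V.dim = 2 * m + 1 → HomEqNumIn W V (m + 1))) := by
  constructor
  · intro X Y i D hdim hD hY hHL hWL
    exact ⟨d_hyperplane hdim hD hY hHL hWL, fun h =>
      ⟨homEqNum_factors hdim hD hY hHL hWL h, numTrivialOnSquares hdim hD hY hHL hWL h⟩⟩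
  · intro hsec
    constructor
    · intro h V m hV
      exact h V (by omega) (m + 1)
    · intro h V hV q
      obtain ⟨E, Y, i, hE, hHL, hdim, hY, hWL⟩ := hsec V hV
      have h1 : HomEqNumIn W (V.prod Y) V.dim := by
        rw [hdim]
        exact h _ Y.dim (by rw [dim_prod]; omega)
      exact (homEqNum_factors hdim hE hY hHL hWL h1 q).1

end Pool.Agent.Results.MP_5f0950_ag.HyperplaneSections
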