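import Pool.Agent.U173.PT.Cyc
import Pool.Agent.TH132.A.NumIn
import Pool.Agent.TH121.KT.GeoFinal

/-!
# Conjecture D for products with arbitrary varieties, from Frobenius elements at several places

Let `F` be a finitely generated field, of any characteristic, `Γ` its Galois group, `k` a separable
closure, `W` the `ℓ`-adic cohomology of varieties over `k` with coefficients in an algebraic closure of
`ℚ_ℓ`, and `χ` the inverse of the cyclotomic character. (Every smooth projective variety over an
algebraically closed field is defined over such a field, and homological and numerical equivalence do
not depend on it.) The theorem is proved for an abstract Weil cohomology theory and an abstract group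
acting on the cohomology of the varieties of a class `G`, closed under products, with the formal
properties of a Galois action (`GaloisClass`).

A *place* `v` is given by a Frobenius element `σ_v ∈ Γ` with residue field of `p ^ m` elements and an
embedding of `ℚ̄` in an algebraic closure of `ℚ_p`. A field `L ⊆ ℚ̄` is a *slope field* of an algebraic
number `a` if the automorphisms of `ℚ̄` over `L` do not change the `p`-adic absolute values of the
conjugates of `a`.

Let `X_i` be smooth projective varieties over `F`, of any dimensions, and `P_i` sets of places, such that
(`IsGood`) the cohomology of `X_i` is the direct sum of the span of the classes of algebraic cycles and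
a subspace `T_i` stable under `Γ`, the eigenvalues of the `σ_v` on `T_i` are Weil numbers with slope field
`L_i(v)` (`v ∈ P_i`), and no nonzero subspace of `T_i` which is stable under an open subgroup of `Γ` is
supersingular at all places in `P_i`. Let `Y_j` and `Z` be **arbitrary** smooth projective varieties over
`F`. Suppose (`IsSystem`) that for `v ∈ P_i` the slope fields at `v` of the `X_j`, `j` behind `i`, of the
`Y_j` and of `Z`, **separately for each of these varieties**, meet `L_i(v)` in totally real fields (after
the adjunction of a totally real field `E_i(v)` over which `L_i(v)` is normal).

**Theorem.** Let `V = ∏ X_i × ∏ Y_j × Z`.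
1. **Homological and numerical equivalence coincide on `V` if and only if they coincide on
   `∏ Y_j × Z`.** In particular (no `Y_j`, `Z` a point) they coincide on `∏ X_i`.
2. Let `V'` be the product of the factors behind `i`. Every cycle on `X_i × V'` is homologically equivalent
   to a sum of products of cycles on `X_i` and on `V'` (rational coefficients), and homological and numerical
   equivalence coincide in codimension `c` on `X_i × V'` if and only if they coincide on `V'` in the
   codimensions `c - e` for all `e ≤ c` such that `X_i` has a cycle of codimension `e` which is not
   homologically equivalent to zero.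

So conjecture D holds for `∏ X_i × Z` and every variety `Z` for which it is known, for example all `Z` of
dimension at most four in characteristic zero, without any hypothesis on the monodromy groups, the
endomorphisms, the Tate conjecture or the semisimplicity for `Z`; in positive characteristic for all
surfaces `Z` (and all `Z` for which it is known), over any algebraically closed field.

Proof. The class of a cycle on `X_i × V'` is fixed by an open subgroup, up to the twist. As in
`MP_938ce2_ag.PotentialTateClasses` (same hypotheses; there the Tate conjecture) it lies in the span of
the products with algebraic classes on `X_i`; and homological and numerical equivalence coincide on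
`X_i` by the argument with the orthogonal space of `T_i` (`U173/PT/Nondeg`). Dual systems of cycles
give the decomposition (library `TH132/A`). The earlier result of mine `MP_0c8446_ag.SlopeFieldsNumerical`
concerns finite fields, one arbitrary factor, and good factors in the sense of one Frobenius.
-/

set_option autoImplicit false

open CategoryTheory AlgebraicGeometry

universe u

namespace Pool.Agent.Results.MP_5f0950_ag.SeveralPlaces

open Pool.Agent.H914 Pool.Agent.H914.VarClass Pool.Agent.H914.VarClass.Obj
  Pool.Agent.H914.WeilCohomology Pool.Agent.H281R3.HT Pool.Agent.TH125.Gal Pool.Agent.TH132.A
  Pool.Agent.U173.PT Pool.Agent.H447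

/-- **Conjecture D for products with arbitrary varieties, from Frobenius elements at several
places.** -/
theorem result {k : Type u} [Field k] {𝒱 : VarClass k} {ops : CycleOps 𝒱}
    (W : WeilCohomology.{u, 0} ops) [IsAlgClosed W.K] {Γ : Type} [Group Γ] (χ : Γ →* W.Kˣ)
    (G : Set (GVar W Γ)) {I I' : Type} (P : I → Set (Place Γ))
    (E L : I → Place Γ → IntermediateField ℚ (AlgebraicClosure ℚ)) (X : I → GVar W Γ)
    (Y : I' → GVar W Γ) (Z : GVar W Γ) (l : List I) (l' : List I')
    (h : IsGaloisSystem χ G P E L X Y Z l l') :
    (HomEqNum W (prodObj X (prodObj Y Z.X l') l) ↔ HomEqNum W (prodObj Y Z.X l')) ∧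
    ∀ (i : I) (l₁ : List I), l = i :: l₁ →
      CyclesSplit W (X i).X (prodObj X (prodObj Y Z.X l') l₁) ∧
      ∀ c ≤ ((X i).X.prod (prodObj X (prodObj Y Z.X l') l₁)).dim,
        (HomEqNumIn W ((X i).X.prod (prodObj X (prodObj Y Z.X l') l₁)) c ↔
          ∀ e ≤ c, (∃ x, (X i).X.IsCyc e x ∧ ¬ HomEq W x 0) →
            HomEqNumIn W (prodObj X (prodObj Y Z.X l') l₁) (c - e)) := by
  refine ⟨h.homEqNum_iff, fun i l₁ hl => ?_⟩
  subst hl
  have h2 := h.tens
  have h1 := h.system.homEqNum i
  exact ⟨(Pool.Agent.TH121.KT.lefschetz_of_tens h1 h2).1, fun c hc =>
    homEqNumIn_prod_iff h2 h1 hc⟩

end Pool.Agent.Results.MP_5f0950_ag.SeveralPlaces
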